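import Pool.Agent.H6.N4D.TB

/-!
# Row E2S: the residual function is almost constant under small shifts
-/

set_option autoImplicit false

open Finset

namespace Pool.Agent.H97.N4D

open Pool.Agent.H6.N4D

private theorem sr_add_int {y : ℝ} (h : |y| < 1 / 2) (m : ℤ) : sr (y + m) = y := by
  unfold sr
  rw [abs_lt] at h
  have h1 : round y = 0 := by
    rw [round_eq_zero_iff]
    exact ⟨h.1.le, h.2⟩
  rw [round_add_intCast, h1]
  push_cast
  ring

private theorem Phi_cmp (s s' d d' η r : ℝ) (hs : 20 ≤ s) (h1 : s ≤ s') (h2 : s' ≤ s * (1 + r))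
    (hr : 0 ≤ r) (hη : 0 ≤ η) (hη1 : η ≤ 1) (he : nd (d' - d) ≤ η / s) :
    ‖Phi (s' * sr d') - Phi (s * sr d)‖ ≤ 4 * ((1 + r) * η + 5 * r) := by
  have hs0 : 0 < s := by linarith
  have hs0' : 0 < s' := by linarith
  by_cases h : |s * sr d| ≤ 5
  · rw [abs_mul, abs_of_pos hs0] at h
    have h3 : |sr d| ≤ 1 / 4 := by
      have : 20 * |sr d| ≤ s * |sr d| := mul_le_mul_of_nonneg_right hs (abs_nonneg _)
      linarith
    obtain ⟨k, hk⟩ := exists_int (d' - d)
    rw [← hk] at he
    have h4 : |d' - d - k| ≤ 1 / 20 := by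
      refine he.trans ?_
      rw [div_le_iff₀ hs0]
      linarith
    have h5 : |sr d + (d' - d - k)| < 1 / 2 := by
      have := abs_add_le (sr d) (d' - d - k)
      linarith
    have h6 : sr d' = sr d + (d' - d - k) := by
      have h7 := sr_add_int h5 (round d + k)
      have h8 : sr d + (d' - d - k) + ((round d + k : ℤ) : ℝ) = d' := by
        unfold sr
        push_cast
        ring
      rwa [h8] at h7
    have h9 : |s' * sr d' - s * sr d| ≤ (1 + r) * η + 5 * r := by
      have h10 : s' * sr d' - s * sr d = s' * (d' - d - k) + (s' - s) * sr d := by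
        rw [h6]
        ring
      rw [h10]
      refine (abs_add_le _ _).trans ?_
      rw [abs_mul, abs_mul, abs_of_pos hs0', abs_of_nonneg (by linarith : (0 : ℝ) ≤ s' - s)]
      have h11 : s * |d' - d - k| ≤ η := by
        have := mul_le_mul_of_nonneg_left he hs0.le
        rwa [mul_div_cancel₀ _ hs0.ne'] at this
      have h12 : s' * |d' - d - k| ≤ (1 + r) * η := by
        calc s' * |d' - d - k| ≤ s * (1 + r) * |d' - d - k| :=
              mul_le_mul_of_nonneg_right h2 (abs_nonneg _)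
          _ = (1 + r) * (s * |d' - d - k|) := by ring
          _ ≤ (1 + r) * η := mul_le_mul_of_nonneg_left h11 (by linarith)
      have h13 : (s' - s) * |sr d| ≤ 5 * r := by
        calc (s' - s) * |sr d| ≤ (s * r) * |sr d| :=
              mul_le_mul_of_nonneg_right (by linarith) (abs_nonneg _)
          _ = r * (s * |sr d|) := by ring
          _ ≤ r * 5 := mul_le_mul_of_nonneg_left h hr
          _ = 5 * r := by ring
      linarith
    exact (Phi_lip _ _).trans (mul_le_mul_of_nonneg_left h9 (by norm_num))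
  · have h0 : 0 ≤ 4 * ((1 + r) * η + 5 * r) := by positivity
    have h3 : 5 < |s * sr d| := not_le.1 h
    have h4 : 5 < s * nd d := by
      rwa [abs_mul, abs_of_pos hs0, abs_sr] at h3
    have h5 : s * nd (d' - d) ≤ η := by
      have := mul_le_mul_of_nonneg_left he hs0.le
      rwa [mul_div_cancel₀ _ hs0.ne'] at this
    have h6 : nd d ≤ nd d' + nd (d' - d) := by
      have := nd_sub_le d' (d' - d)
      rwa [sub_sub_cancel] at this
    have h7 : 4 ≤ s * nd d' := by
      have := mul_le_mul_of_nonneg_left h6 hs0.le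
      linarith
    have h8 : 4 ≤ |s' * sr d'| := by
      rw [abs_mul, abs_of_pos hs0', abs_sr]
      exact h7.trans (mul_le_mul_of_nonneg_right h1 (nd_nonneg _))
    rw [Phi_large h8, Phi_large (by linarith), sub_self, norm_zero]
    exact h0

theorem pf_E2S (hSIZ : T_SIZ) : T_E2S := by
  intro K ε₁ ε' hK hε₁ hε₁1 hε' hε'1
  obtain ⟨X₁, hX₁⟩ := hSIZ
  obtain ⟨X₂, hX₂⟩ := LL_large (1 / ε')
  refine ⟨max (max X₁ X₂) ((2000 / ε') ^ 4), ?_⟩
  intro S ε₀ T θ φ hok hSK hX hε₀ hε₀1 hO hT k hk w hw1 hwV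
  have hXa := (le_max_left _ _).trans ((le_max_left _ _).trans hX)
  have hXb := (le_max_right _ _).trans ((le_max_left _ _).trans hX)
  have hXc := (le_max_right _ _).trans hX
  obtain ⟨hL1, hP, -, hr100, -, -, hVh, -, hI, -, -, hN, -⟩ := hX₁ S hok hXa
  have hL : 1 / ε' ≤ S.L := hX₂ S.X hXb
  have hKS : 1 ≤ S.K := by rw [hSK]; exact hK
  have hKR : (1 : ℝ) ≤ S.K := by exact_mod_cast hKS
  have hh := hok.hh
  have hρ := hok.hr0
  -- rho is small
  have hρs : S.rho ≤ ε' / 2000 := by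
    have h1 : 2000 / ε' ≤ S.X ^ (1 / 4 : ℝ) := by
      have h2 : ((2000 / ε') ^ 4) ^ (1 / 4 : ℝ) ≤ S.X ^ (1 / 4 : ℝ) :=
        Real.rpow_le_rpow (by positivity) hXc (by norm_num)
      refine le_trans (le_of_eq ?_) h2
      rw [← Real.rpow_natCast, ← Real.rpow_mul (by positivity)]
      norm_num
    have h2 := mul_le_mul_of_nonneg_left h1 hρ.le
    have h3 : S.rho * (2000 / ε') ≤ 1 := h2.trans hok.hr1
    rw [← mul_div_assoc, div_le_one hε'] at h3
    linarith
  have hwh : (w : ℝ) * S.h ≤ S.rho ^ 2 := by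
    refine le_trans ?_ hVh
    have : (w : ℝ) ≤ S.V := by exact_mod_cast hwV
    exact mul_le_mul_of_nonneg_right this hh.le
  have hw0 : (0 : ℝ) ≤ w := Nat.cast_nonneg _
  -- the pointwise estimate
  have hpt : ∀ t ∈ S.I, OSh S ε₀ θ φ t w → OSh S ε₀ θ φ (t + 2 ^ k) w →
      ‖F2 S ε₁ θ k T (t + w) - F2 S ε₁ θ k T t‖ ≤ ε' := by
    intro t ht ho1 ho2
    obtain ⟨hxt, -, -, -⟩ := hI t ht
    have hx0 : 0 < S.x t := Par.x_pos t
    have h100 : 100 ≤ S.rho * S.x t := by
      refine le_trans ?_ hxt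
      have h1 : S.P ≤ S.P ^ (100 * S.K) := le_self_pow₀ (by linarith) (by omega)
      linarith
    set E : ℝ := Real.exp (-(2 ^ k * S.h)) - 1 with hE
    have hE1 : |E| ≤ 1 := by
      have h1 : Real.exp (-(2 ^ k * S.h)) ≤ 1 := by
        apply Real.exp_le_one_iff.2
        have : 0 ≤ 2 ^ k * S.h := by positivity
        linarith
      have h2 := Real.exp_pos (-(2 ^ k * S.h))
      rw [abs_le]
      constructor <;> linarith
    have hxw : S.x (t + (w : ℤ)) = S.x t * Real.exp (S.h * (w : ℤ)) := Par.x_add t _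
    have hexp1 : 1 ≤ Real.exp (S.h * ((w : ℤ) : ℝ)) := by
      apply Real.one_le_exp
      push_cast
      positivity
    have hexp2 : Real.exp (S.h * ((w : ℤ) : ℝ)) ≤ 1 + 2 * S.rho ^ 2 := by
      have h1 : S.h * ((w : ℤ) : ℝ) ≤ S.rho ^ 2 := by
        push_cast
        linarith
      have h2 : S.rho ^ 2 ≤ 1 := by nlinarith
      have h3 := Real.abs_exp_sub_one_le (x := S.h * ((w : ℤ) : ℝ)) (by
        rw [abs_of_nonneg (by push_cast; positivity)]
        linarith)
      rw [abs_of_nonneg (by linarith), abs_of_nonneg (by push_cast; positivity)] at h3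
      linarith
    -- the two arguments
    set d : ℝ := θ (t + 2 ^ k) - θ t - T * E / S.x t with hd
    set d' : ℝ := θ (t + w + 2 ^ k) - θ (t + w) - T * E / S.x (t + w) with hd'
    have hdd : nd (d' - d) ≤ (2 * ε₀ / ε₁ + 200 * S.rho) / (S.rho * S.x t / ε₁) := by
      have e1 : t + (w : ℤ) + 2 ^ k = t + 2 ^ k + w := by ring
      have e2 : d' - d = (θ (t + 2 ^ k + w) - θ (t + 2 ^ k)) - (θ (t + w) - θ t) +
          (T * E / S.x t - T * E / S.x (t + w)) := by
        rw [hd, hd', e1]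
        ring
      rw [e2]
      have h1 : nd (θ (t + 2 ^ k + w) - θ (t + 2 ^ k)) ≤ ε₀ / (S.rho * S.x t) := by
        refine ho2.1.trans ?_
        apply div_le_div_of_nonneg_left hε₀ (by positivity)
        apply mul_le_mul_of_nonneg_left _ hρ.le
        apply Par.x_mono hh
        have : (0 : ℤ) ≤ 2 ^ k := by positivity
        linarith
      have h2 := ho1.1
      have h3 : |T * E / S.x t - T * E / S.x (t + w)| ≤ 200 * ε₁ / S.x t := by
        have h4 : T * E / S.x t - T * E / S.x (t + w) =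
            T * E / S.x t * (1 - (Real.exp (S.h * ((w : ℤ) : ℝ)))⁻¹) := by
          rw [hxw]
          field_simp
        have h5 : 0 ≤ 1 - (Real.exp (S.h * ((w : ℤ) : ℝ)))⁻¹ := by
          have := inv_le_one_of_one_le₀ hexp1
          linarith
        have h6 : 1 - (Real.exp (S.h * ((w : ℤ) : ℝ)))⁻¹ ≤ S.rho ^ 2 := by
          rw [← Real.exp_neg]
          have h7 := Real.add_one_le_exp (-(S.h * ((w : ℤ) : ℝ)))
          push_cast at h7 ⊢
          linarith
        rw [h4, abs_mul, abs_of_nonneg h5, abs_div, abs_mul, abs_of_pos hx0]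
        have h7 : |T| * |E| / S.x t ≤ 200 * ε₁ / S.rho ^ 2 / S.x t := by
          apply div_le_div_of_nonneg_right _ hx0.le
          calc |T| * |E| ≤ |T| * 1 := mul_le_mul_of_nonneg_left hE1 (abs_nonneg _)
            _ = |T| := mul_one _
            _ ≤ _ := hT
        calc |T| * |E| / S.x t * (1 - (Real.exp (S.h * ((w : ℤ) : ℝ)))⁻¹) ≤
            200 * ε₁ / S.rho ^ 2 / S.x t * S.rho ^ 2 := mul_le_mul h7 h6 h5 (by positivity)
          _ = 200 * ε₁ / S.x t := by
            field_simp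
      have h4 := nd_add_le ((θ (t + 2 ^ k + w) - θ (t + 2 ^ k)) - (θ (t + w) - θ t))
        (T * E / S.x t - T * E / S.x (t + w))
      have h5 := nd_sub_le (θ (t + 2 ^ k + w) - θ (t + 2 ^ k)) (θ (t + w) - θ t)
      have h6 := nd_le_abs (T * E / S.x t - T * E / S.x (t + w))
      have h7 : (2 * ε₀ / ε₁ + 200 * S.rho) / (S.rho * S.x t / ε₁) =
          ε₀ / (S.rho * S.x t) + ε₀ / (S.rho * S.x t) + 200 * ε₁ / S.x t := by
        field_simp
        ring
      rw [h7]
      linarith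
    have hη1 : 2 * ε₀ / ε₁ ≤ ε' / 50 := by
      rw [div_le_iff₀ hε₁]
      linarith
    have hη0 : 0 ≤ 2 * ε₀ / ε₁ := by positivity
    have hmain := Phi_cmp (S.rho * S.x t / ε₁) (S.rho * S.x (t + w) / ε₁) d d'
      (2 * ε₀ / ε₁ + 200 * S.rho) (2 * S.rho ^ 2)
      (by
        rw [le_div_iff₀ hε₁]
        linarith)
      (by
        apply div_le_div_of_nonneg_right _ hε₁.le
        apply mul_le_mul_of_nonneg_left _ hρ.le
        apply Par.x_mono hh
        have : (0 : ℤ) ≤ (w : ℤ) := Int.natCast_nonneg _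
        linarith)
      (by
        rw [hxw]
        have h1 : S.rho * S.x t / ε₁ * (1 + 2 * S.rho ^ 2) =
            S.rho * (S.x t * (1 + 2 * S.rho ^ 2)) / ε₁ := by ring
        rw [h1]
        apply div_le_div_of_nonneg_right _ hε₁.le
        apply mul_le_mul_of_nonneg_left _ hρ.le
        exact mul_le_mul_of_nonneg_left hexp2 hx0.le)
      (by positivity) (by positivity) (by linarith) hdd
    unfold F2
    refine hmain.trans ?_
    have h1 : S.rho ^ 2 ≤ 1 / 100 * S.rho := by
      rw [sq]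
      exact mul_le_mul_of_nonneg_right hr100 hρ.le
    have h2 : S.rho ^ 2 ≤ 1 / 10000 := by linarith
    have h3 : 0 ≤ S.rho ^ 2 := sq_nonneg _
    have h4 : (1 + 2 * S.rho ^ 2) * (2 * ε₀ / ε₁ + 200 * S.rho) ≤
        (1 + 2 * (1 / 10000)) * (ε' / 50 + ε' / 10) :=
      mul_le_mul (by linarith) (by linarith) (by positivity) (by norm_num)
    linarith
  -- counting
  have hkJ : (2 : ℝ) ^ k * S.h ≤ 1 := by
    have h1 : (2 : ℝ) ^ k ≤ 2 ^ S.J := pow_le_pow_right₀ (by norm_num) hk
    have h2 := mul_le_mul_of_nonneg_right h1 hh.le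
    have h3 := hok.hJ
    have h4 : Real.log 2 ≤ 1 := by
      have := Real.log_two_lt_d9
      linarith
    linarith
  have hbd : 2 * (2 : ℝ) ^ k + w ≤ ε' / 2 * S.N := by
    have h1 : (2 * (2 : ℝ) ^ k + w) * S.h ≤ 3 := by
      have : S.rho ^ 2 ≤ 1 := by nlinarith
      nlinarith
    have h2 : ε' * S.L ≥ 1 := by
      have := mul_le_mul_of_nonneg_left hL hε'.le
      rwa [mul_one_div_cancel hε'.ne'] at this
    have h3 : 12 * S.L ≤ S.N * S.h := by
      refine le_trans ?_ hok.hI1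
      have : S.L ≤ S.K * S.L := le_mul_of_one_le_left (by linarith) hKR
      linarith
    have h4 : 3 ≤ ε' / 2 * S.N * S.h := by nlinarith
    exact le_of_mul_le_mul_right (h1.trans h4) hh
  set E1 : ℤ → Prop := fun t => t + (w : ℤ) ∈ S.I ∧ ¬ OSh S ε₀ θ φ t w with hE1def
  have hs := hO.shf w hwV
  have hshift := Par.cnt_shift (S := S) E1 (2 ^ k)
  have hout1 := Par.cnt_out (S := S) (2 ^ k)
  have hout2 := Par.cnt_out (S := S) (2 ^ k + w)
  have ha1 : |(((2 : ℤ) ^ k : ℤ) : ℝ)| = 2 ^ k := by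
    push_cast
    exact abs_of_nonneg (by positivity)
  have ha2 : |(((2 : ℤ) ^ k + w : ℤ) : ℝ)| = 2 ^ k + w := by
    push_cast
    exact abs_of_nonneg (by positivity)
  rw [ha1] at hout1
  rw [ha2] at hout2
  have hc1 : S.cnt (fun t => t + (w : ℤ) ∈ S.I ∧
      ε' < ‖F2 S ε₁ θ k T (t + w) - F2 S ε₁ θ k T t‖) ≤
      S.cnt E1 + S.cnt (fun t => (t + 2 ^ k ∈ S.I ∧ E1 (t + 2 ^ k)) ∨
        (t + 2 ^ k ∉ S.I ∨ t + (2 ^ k + w) ∉ S.I)) := by
    apply Par.cnt_le_add
    intro t ht hh'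
    by_cases h1 : E1 t
    · exact Or.inl h1
    right
    by_cases h2 : t + 2 ^ k ∉ S.I
    · exact Or.inr (Or.inl h2)
    by_cases h3 : t + (2 ^ k + w) ∉ S.I
    · exact Or.inr (Or.inr h3)
    left
    rw [not_not] at h2 h3
    refine ⟨h2, ?_, ?_⟩
    · rw [add_assoc]
      exact h3
    · intro ho2
      have ho1 : OSh S ε₀ θ φ t w := by
        by_contra hcon
        exact h1 ⟨hh'.1, hcon⟩
      exact absurd (hpt t ht ho1 ho2) (not_le.2 hh'.2)
  have hc2 := Par.cnt_or (S := S) (fun t => t + 2 ^ k ∈ S.I ∧ E1 (t + 2 ^ k))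
    (fun t => t + 2 ^ k ∉ S.I ∨ t + (2 ^ k + w) ∉ S.I)
  have hc3 := Par.cnt_or (S := S) (fun t => t + 2 ^ k ∉ S.I)
    (fun t => t + (2 ^ k + w) ∉ S.I)
  linarith

end Pool.Agent.H97.N4D
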