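import Pool.Agent.H6.N4D.TC

/-!
# Row EDW: edges between windows
-/

set_option autoImplicit false

open Finset

namespace Pool.Agent.H97.N4D

open Pool.Agent.H6.N4D

/-- the counting step: all in terms of natural numbers and inequalities -/
private theorem count (lam : ℕ → ℝ) (hlio : Lio lam) (p n n' Y N : ℕ) (θ φ θ' φ' : ℝ)
    (hp : p.Prime) (h1 : (p : ℝ) * n' ≤ n + 2) (h2 : (n : ℝ) ≤ p * n' + p + 2)
    (h3 : (p : ℝ) * N ≤ Y + 2) :
    er N (p * θ) (φ + θ * (p * (n' : ℝ) - n) + 1 / 2) θ' φ' ≤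
      ((Ioc n' (n' + N)).filter fun m : ℕ =>
        lam m * Real.cos (2 * Real.pi * (θ' * ((m : ℝ) - n') + φ')) ≤ 0).card +
      ((Ioc n (n + Y)).filter fun m : ℕ => p ∣ m ∧
        lam m * Real.cos (2 * Real.pi * (θ * ((m : ℝ) - n) + φ)) ≤ 0).card + 5 := by
  classical
  have hp2 : (2 : ℝ) ≤ p := by exact_mod_cast hp.two_le
  set A : Finset ℕ := (Icc 1 N).filter fun j : ℕ =>
    lam (n' + j) * Real.cos (2 * Real.pi * (θ' * j + φ')) ≤ 0 with hA
  set B : Finset ℕ := (Icc 1 N).filter fun j : ℕ => p * (n' + j) ∈ Ioc n (n + Y) ∧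
    lam (p * (n' + j)) * Real.cos (2 * Real.pi * (θ * (((p * (n' + j) : ℕ) : ℝ) - n) + φ)) ≤ 0
    with hB
  have hAc : A.card ≤ ((Ioc n' (n' + N)).filter fun m : ℕ =>
        lam m * Real.cos (2 * Real.pi * (θ' * ((m : ℝ) - n') + φ')) ≤ 0).card := by
    apply card_le_card_of_injOn (fun j => n' + j)
    · intro j hj
      rw [mem_coe, hA, mem_filter, mem_Icc] at hj
      rw [mem_coe, mem_filter, mem_Ioc]
      refine ⟨⟨by show n' < n' + j; omega, by show n' + j ≤ n' + N; omega⟩, ?_⟩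
      have h4 : (((n' + j : ℕ) : ℝ) - n') = j := by push_cast; ring
      rw [h4]
      exact hj.2
    · intro a _ b _ hab
      simpa using hab
  have hBc : B.card ≤ ((Ioc n (n + Y)).filter fun m : ℕ => p ∣ m ∧
        lam m * Real.cos (2 * Real.pi * (θ * ((m : ℝ) - n) + φ)) ≤ 0).card := by
    apply card_le_card_of_injOn (fun j => p * (n' + j))
    · intro j hj
      rw [mem_coe, hB, mem_filter] at hj
      rw [mem_coe, mem_filter]
      exact ⟨hj.2.1, dvd_mul_right _ _, hj.2.2⟩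
    · intro a _ b _ hab
      have h4 := Nat.eq_of_mul_eq_mul_left hp.pos hab
      omega
  have hsub : ((Icc 1 N).filter fun j : ℕ =>
      Real.cos (2 * Real.pi * (p * θ * j + (φ + θ * (p * (n' : ℝ) - n) + 1 / 2))) *
      Real.cos (2 * Real.pi * (θ' * j + φ')) ≤ 0) ⊆ A ∪ B ∪ {1, 2, N - 2, N - 1, N} := by
    intro j hj
    rw [mem_filter, mem_Icc] at hj
    obtain ⟨⟨hj1, hjN⟩, hj0⟩ := hj
    rw [mem_union, mem_union]
    by_cases ha : j ∈ A
    · exact Or.inl (Or.inl ha)
    by_cases hb : j ∈ B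
    · exact Or.inl (Or.inr hb)
    right
    rw [hA, mem_filter, mem_Icc] at ha
    rw [hB, mem_filter, mem_Icc] at hb
    have ha' : 0 < lam (n' + j) * Real.cos (2 * Real.pi * (θ' * j + φ')) := by
      by_contra hcon
      exact ha ⟨⟨hj1, hjN⟩, not_lt.1 hcon⟩
    by_cases hw : p * (n' + j) ∈ Ioc n (n + Y)
    · exfalso
      have hb' : 0 < lam (p * (n' + j)) *
          Real.cos (2 * Real.pi * (θ * (((p * (n' + j) : ℕ) : ℝ) - n) + φ)) := by
        by_contra hcon
        exact hb ⟨⟨hj1, hjN⟩, hw, not_lt.1 hcon⟩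
      rw [hlio.pr p (n' + j) hp (by omega)] at hb'
      have h5 : Real.cos (2 * Real.pi * (p * θ * j + (φ + θ * (p * (n' : ℝ) - n) + 1 / 2))) =
          - Real.cos (2 * Real.pi * (θ * (((p * (n' + j) : ℕ) : ℝ) - n) + φ)) := by
        rw [← Real.cos_add_pi]
        congr 1
        push_cast
        ring
      rw [h5] at hj0
      have h6 := mul_pos ha' hb'
      have h7 : lam (n' + j) * lam (n' + j) = 1 := by
        rcases hlio.pm (n' + j) with h | h <;> rw [h] <;> norm_num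
      have h8 : lam (n' + j) * Real.cos (2 * Real.pi * (θ' * j + φ')) *
          (-lam (n' + j) *
            Real.cos (2 * Real.pi * (θ * (((p * (n' + j) : ℕ) : ℝ) - n) + φ))) =
          (lam (n' + j) * lam (n' + j)) *
          (-Real.cos (2 * Real.pi * (θ * (((p * (n' + j) : ℕ) : ℝ) - n) + φ)) *
            Real.cos (2 * Real.pi * (θ' * j + φ'))) := by ring
      rw [h8, h7, one_mul] at h6
      exact absurd hj0 (not_le.2 h6)
    · rw [mem_Ioc, not_and_or] at hw
      have hj1' : (1 : ℝ) ≤ j := by exact_mod_cast hj1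
      have hgoal : j = 1 ∨ j = 2 ∨ N ≤ j + 2 := by
        rcases hw with hw | hw
        · have h5 : p * (n' + j) ≤ n := not_lt.1 hw
          have h6 : (p : ℝ) * (n' + j) ≤ n := by exact_mod_cast h5
          have h7 : (p : ℝ) * j ≤ p + 2 := by linarith
          have h8 : (j : ℝ) ≤ 2 := by
            by_contra hcon
            have h9 : 3 ≤ j := by
              have : (2 : ℝ) < j := not_le.1 hcon
              exact_mod_cast this
            have h10 : (3 : ℝ) ≤ j := by exact_mod_cast h9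
            nlinarith
          have h9 : j ≤ 2 := by exact_mod_cast h8
          omega
        · have h5 : n + Y < p * (n' + j) := not_le.1 hw
          have h6 : (n : ℝ) + Y < p * (n' + j) := by exact_mod_cast h5
          have h7 : (p : ℝ) * N < p * j + 4 := by linarith
          right
          right
          have h8 : (N : ℝ) < j + 2 := by
            by_contra hcon
            have h9 : (j : ℝ) + 2 ≤ N := not_lt.1 hcon
            nlinarith
          have h9 : N < j + 2 := by exact_mod_cast h8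
          omega
      simp only [mem_insert, mem_singleton]
      omega
  have h10 : er N (p * θ) (φ + θ * (p * (n' : ℝ) - n) + 1 / 2) θ' φ' ≤
      (A ∪ B ∪ {1, 2, N - 2, N - 1, N}).card := by
    unfold er
    exact card_le_card hsub
  refine h10.trans ((card_union_le _ _).trans ?_)
  have h11 : ({1, 2, N - 2, N - 1, N} : Finset ℕ).card ≤ 5 := card_le_five
  have h12 := card_union_le A B
  omega

theorem pf_EDW (hRIG : T_RIG) (hSIZ : T_SIZ) : T_EDW := by
  intro K ε₀ hK hε₀
  obtain ⟨X₁, hX₁⟩ := hSIZ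
  obtain ⟨Q, hQ⟩ := hRIG (ε₀ / 4) (by positivity)
  refine ⟨Q, fun η hη => ?_⟩
  obtain ⟨e', N₀, he', hN₀⟩ := hQ η hη
  obtain ⟨X₂, hX₂⟩ := LL_large (N₀ + 10 + 10 / e')
  refine ⟨e' / 10, max X₁ X₂, by positivity, ?_⟩
  intro S lam t p θ φ θ' φ' hok hSK hX hlio ht ht' hp herp hGD
  obtain ⟨hL, hP, -, hr100, -, -, -, -, hI, hlp, -, -, -⟩ :=
    hX₁ S hok ((le_max_left _ _).trans hX)
  have hKS : 1 ≤ S.K := by rw [hSK]; exact hK
  have hD : N₀ + 10 + 10 / e' ≤ S.P := by
    have h1 := hX₂ S.X ((le_max_right _ _).trans hX)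
    have h2 : LL S.X + 1 ≤ S.P := Real.add_one_le_exp _
    linarith
  have hP1 : 1 ≤ S.P := by linarith
  have hP0 : 0 < S.P := by linarith
  have hpp : p.Prime ∧ (p : ℝ) ≤ S.P ^ (2 * S.K) := by
    rcases hp with hp | hp
    · have h1 := (mem_Pr (by positivity)).1 hp
      exact ⟨h1.2.2, h1.2.1⟩
    · subst hp
      refine ⟨Nat.prime_two, ?_⟩
      have h1 : S.P ≤ S.P ^ (2 * S.K) := le_self_pow₀ hP1 (by omega)
      push_cast
      linarith
  obtain ⟨hpr, hpP⟩ := hpp
  have hp2 : (2 : ℝ) ≤ p := by exact_mod_cast hpr.two_le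
  have hp0 : (0 : ℝ) < p := by linarith
  obtain ⟨hxt, hxX, hn1, hn2⟩ := hI t ht
  obtain ⟨-, -, hn1', hn2'⟩ := hI _ ht'
  set n := S.n t with hn
  set n' := S.n (t - S.l p) with hn'
  set x := S.x t with hx
  set x' := S.x (t - S.l p) with hx'
  set ρ := S.rho with hρ
  have hρ0 : 0 < ρ := hok.hr0
  have hx0 : 0 < x := Par.x_pos t
  set r : ℝ := ρ * x / p with hr
  have hrp : r * p = ρ * x := by
    rw [hr]
    field_simp
  -- the size of r
  have hrD : S.P ≤ r := by
    rw [hr, le_div_iff₀ hp0]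
    have h1 : S.P * S.P ^ (2 * S.K) ≤ S.P ^ (100 * S.K) := by
      rw [← pow_succ']
      exact pow_le_pow_right₀ hP1 (by omega)
    calc S.P * p ≤ S.P * S.P ^ (2 * S.K) := mul_le_mul_of_nonneg_left hpP hP0.le
      _ ≤ S.P ^ (100 * S.K) := h1
      _ ≤ ρ * x := hxt
  -- the locations
  have hloc : |p * x' - x| ≤ 1 := by
    have h1 : x' = x * Real.exp (-(S.h * (S.l p : ℤ))) := Par.x_sub t _
    have h2 := hlp p hpr.one_le
    have h3 : (p : ℝ) = Real.exp (Real.log p) := (Real.exp_log hp0).symm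
    have h4 : p * x' = x * Real.exp (Real.log p - S.h * S.l p) := by
      rw [h1, sub_eq_add_neg, Real.exp_add, ← h3]
      ring
    have hhX : S.h * S.X ≤ 1 := by
      have h5 := hok.hX5
      have h6 : S.X ≤ S.X ^ 5 := le_self_pow₀ hok.hX (by norm_num)
      exact (mul_le_mul_of_nonneg_left h6 hok.hh.le).trans h5
    have hh1 : S.h ≤ 1 := (le_mul_of_one_le_right hok.hh.le hok.hX).trans hhX
    have h5 : |Real.log p - S.h * S.l p| ≤ S.h / 2 := by
      rw [abs_sub_comm]
      exact h2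
    have h6 := Real.abs_exp_sub_one_le (x := Real.log p - S.h * S.l p) (by linarith)
    have h7 : p * x' - x = x * (Real.exp (Real.log p - S.h * S.l p) - 1) := by
      rw [h4]
      ring
    rw [h7, abs_mul, abs_of_pos hx0]
    calc x * |Real.exp (Real.log p - S.h * S.l p) - 1| ≤ x * (2 * (S.h / 2)) :=
          mul_le_mul_of_nonneg_left (h6.trans (by linarith)) hx0.le
      _ = S.h * x := by ring
      _ ≤ S.h * S.X := mul_le_mul_of_nonneg_left hxX hok.hh.le
      _ ≤ 1 := hhX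
  obtain ⟨hloc1, hloc2⟩ := abs_le.1 hloc
  have hc1 : (p : ℝ) * n' ≤ n + 2 := by
    have h1 := mul_le_mul_of_nonneg_left hn2' hp0.le
    linarith
  have hc2 : (n : ℝ) ≤ p * n' + p + 2 := by
    have h1 : (p : ℝ) * x' ≤ p * (n' + 1) := mul_le_mul_of_nonneg_left (by linarith) hp0.le
    linarith
  have hn0 : (0 : ℝ) ≤ n := Nat.cast_nonneg _
  have hn0' : (0 : ℝ) ≤ n' := Nat.cast_nonneg _
  set Y := ⌊ρ * n⌋₊ with hY
  set N := ⌊ρ * n'⌋₊ with hN
  have hY1 : ρ * n < Y + 1 := Nat.lt_floor_add_one _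
  have hN1 : ρ * n' < N + 1 := Nat.lt_floor_add_one _
  have hN2 : (N : ℝ) ≤ ρ * n' := Nat.floor_le (by positivity)
  have hc3 : (p : ℝ) * N ≤ Y + 2 := by
    have h1 : (p : ℝ) * N ≤ ρ * (p * n') := by
      have := mul_le_mul_of_nonneg_left hN2 hp0.le
      linarith
    have h2 : ρ * (p * n') ≤ ρ * (n + 2) := mul_le_mul_of_nonneg_left hc1 hρ0.le
    linarith
  -- bounds for N
  have hNr : (N : ℝ) ≤ r + 1 := by
    have h1 : (N : ℝ) * p ≤ (r + 1) * p := by
      have h2 : (N : ℝ) * p ≤ ρ * x' * p := by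
        have := hN2.trans (mul_le_mul_of_nonneg_left hn2' hρ0.le)
        exact mul_le_mul_of_nonneg_right this hp0.le
      have h3 : ρ * x' * p ≤ ρ * (x + 1) := by
        have := mul_le_mul_of_nonneg_left (show (p : ℝ) * x' ≤ x + 1 by linarith) hρ0.le
        linarith
      have h4 : (r + 1) * p = ρ * x + p := by rw [add_mul, hrp, one_mul]
      linarith
    exact le_of_mul_le_mul_right h1 hp0
  have hrN : r ≤ N + 2 := by
    have h1 : r * p ≤ (N + 2) * p := by
      rw [hrp]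
      have h2 : x ≤ p * (n' + 1) + 1 := by
        have h1 : (p : ℝ) * x' ≤ p * (n' + 1) := mul_le_mul_of_nonneg_left (by linarith) hp0.le
        linarith
      have h3 : ρ * x ≤ ρ * (p * (n' + 1) + 1) := mul_le_mul_of_nonneg_left h2 hρ0.le
      have h4 : p * (ρ * n') ≤ p * (N + 1) := mul_le_mul_of_nonneg_left hN1.le hp0.le
      have h5 : ρ * p ≤ 1 / 100 * p := mul_le_mul_of_nonneg_right hr100 hp0.le
      nlinarith
    exact le_of_mul_le_mul_right h1 hp0
  have hNbig : (N₀ : ℝ) + 8 + 10 / e' ≤ N := by linarith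
  have hdiv0 : 0 < 10 / e' := by positivity
  have hNN₀ : N₀ ≤ N := by
    have : (N₀ : ℝ) ≤ N := by linarith
    exact_mod_cast this
  have hN₀0 : (0 : ℝ) ≤ N₀ := Nat.cast_nonneg _
  have hNpos : (0 : ℝ) < N := by linarith
  -- the number of errors
  have hcnt := count lam hlio p n n' Y N θ φ θ' φ' hpr hc1 hc2 hc3
  have hcnt' : (er N (p * θ) (φ + θ * (p * (n' : ℝ) - n) + 1 / 2) θ' φ' : ℝ) ≤ e' * N := by
    have h1 : (er N (p * θ) (φ + θ * (p * (n' : ℝ) - n) + 1 / 2) θ' φ' : ℝ) ≤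
        (((Ioc n' (n' + N)).filter fun m : ℕ =>
        lam m * Real.cos (2 * Real.pi * (θ' * ((m : ℝ) - n') + φ')) ≤ 0).card : ℝ) +
        (((Ioc n (n + Y)).filter fun m : ℕ => p ∣ m ∧
        lam m * Real.cos (2 * Real.pi * (θ * ((m : ℝ) - n) + φ)) ≤ 0).card : ℝ) + 5 := by
      exact_mod_cast hcnt
    have h2 : (((Ioc n' (n' + N)).filter fun m : ℕ =>
        lam m * Real.cos (2 * Real.pi * (θ' * ((m : ℝ) - n') + φ')) ≤ 0).card : ℝ) ≤
        e' / 10 * N := by
      refine le_trans (le_of_eq ?_) hGD.2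
      congr 2
    have h3 : (((Ioc n (n + Y)).filter fun m : ℕ => p ∣ m ∧
        lam m * Real.cos (2 * Real.pi * (θ * ((m : ℝ) - n) + φ)) ≤ 0).card : ℝ) ≤
        e' / 10 * r := by
      have h4 : (erp S lam t p θ φ : ℝ) ≤ e' / 10 * r := by
        refine herp.trans (le_of_eq ?_)
        rw [hr]
        ring
      refine le_trans (le_of_eq ?_) h4
      unfold erp
      congr 2
    have h5 : e' / 10 * r ≤ e' / 10 * (N + 2) := mul_le_mul_of_nonneg_left hrN (by positivity)
    have h6 : e' * (8 + 10 / e') ≤ e' * N :=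
      mul_le_mul_of_nonneg_left (by linarith) he'.le
    have h7 : e' * (8 + 10 / e') = 8 * e' + 10 := by
      field_simp
    linarith
  obtain ⟨τ, hτ, h1, h2⟩ := hN₀ N hNN₀ (p * θ) (φ + θ * (p * (n' : ℝ) - n) + 1 / 2) θ' φ'
    hGD.1 hcnt'
  refine ⟨τ, hτ, h1.trans ?_, h2.trans (by linarith)⟩
  have h3 : p * ε₀ / (ρ * x) = ε₀ / r := by
    rw [← hrp]
    field_simp
  rw [h3, div_div, div_le_div_iff_of_pos_left hε₀ (by positivity) (by linarith)]
  linarith

end Pool.Agent.H97.N4D
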