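import Pool.Agent.H6.N4D.TB

/-!
# Row PH2: the second phase
-/

set_option autoImplicit false

open Finset

namespace Pool.Agent.H97.N4D

open Pool.Agent.H6.N4D

theorem pf_PH2 (hSTP : T_STP) (_hSIZ : T_SIZ) : T_PH2 := by
  intro K hK
  obtain ⟨X₁, hX₁⟩ := hSTP K hK
  obtain ⟨X₃, hX₃⟩ := LL_large 16
  refine ⟨max X₁ X₃, ?_⟩
  intro S ε₁ κ κ' T k θ hok hSK hX hε₁ hε₁1 hκ hκ' hkJ hk hT hHH hz
  have hL : 16 ≤ S.L := hX₃ S.X ((le_max_right _ _).trans hX)
  have hXX := (le_max_left _ _).trans hX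
  have hL1 : 1 / S.L ≤ 1 / 16 := one_div_le_one_div_of_le (by norm_num) hL
  have hρ := hok.hr0
  have hh := hok.hh
  have hu : 0 < 2 ^ k * S.h := by positivity
  set u : ℝ := 2 ^ k * S.h with hudef
  set c : ℝ := ε₁ / (S.rho * u) with hc
  have hc0 : 0 ≤ c := by positivity
  have hc8 : 8 * c ≤ 64 * ε₁ / S.rho ^ 2 := by
    rw [hc, ← mul_div_assoc, div_le_div_iff₀ (by positivity) (by positivity)]
    have h1 : S.rho ≤ 8 * u := by linarith
    have h2 : 8 * ε₁ * S.rho * S.rho ≤ 8 * ε₁ * S.rho * (8 * u) :=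
      mul_le_mul_of_nonneg_left h1 (by positivity)
    nlinarith
  have key : ∀ i : ℕ, k + i ≤ S.J → ∃ T' κi : ℝ, κi ≤ 1 / 8 ∧ (1 ≤ i → κi = κ' + 1 / S.L) ∧
      HH S κi ε₁ θ (k + i) T' ∧
      |T'| ≤ 112 * ε₁ / S.rho ^ 2 + 8 * c * (1 - (1 / 2) ^ i) := by
    intro i
    induction i with
    | zero =>
      intro _
      refine ⟨T, κ, hκ, fun h => absurd h (by omega), by simpa using hHH, ?_⟩
      simpa using hT
    | succ i ih =>
      intro hi
      obtain ⟨T₁, κ₁, hκ₁, -, hH₁, hT₁⟩ := ih (by omega)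
      have hp0 : (0 : ℝ) ≤ (1 / 2) ^ i := by positivity
      have hTle : |T₁| ≤ 200 * ε₁ / S.rho ^ 2 := by
        have h1 : 8 * c * (1 - (1 / 2) ^ i) ≤ 8 * c * 1 :=
          mul_le_mul_of_nonneg_left (by linarith) (by positivity)
        have h2 : 112 * ε₁ / S.rho ^ 2 + 64 * ε₁ / S.rho ^ 2 ≤ 200 * ε₁ / S.rho ^ 2 := by
          rw [← add_div]
          apply div_le_div_of_nonneg_right _ (by positivity)
          linarith
        linarith
      have hz' := hz (k + i + 1) T₁ (by omega) hTle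
      obtain ⟨T₂, hT₂, hH₂⟩ := hX₁ S ε₁ κ₁ κ' T₁ (k + i) θ hok hSK hXX hε₁ hε₁1 hκ₁
        (by linarith) (by omega) hH₁ hz'
      refine ⟨T₂, κ' + 1 / S.L, by linarith, fun _ => rfl, hH₂, ?_⟩
      have h3 : 4 * ε₁ / (S.rho * (2 ^ (k + i) * S.h)) = 4 * c * (1 / 2) ^ i := by
        rw [hc, hudef, pow_add, div_pow, one_pow]
        field_simp
      rw [h3] at hT₂
      have h4 : |T₂| ≤ |T₂ - T₁| + |T₁| := by
        have := abs_add_le (T₂ - T₁) T₁
        rwa [sub_add_cancel] at this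
      have h5 : (1 / 2 : ℝ) ^ (i + 1) = (1 / 2) ^ i * (1 / 2) := pow_succ _ _
      rw [h5]
      nlinarith
  obtain ⟨T', κi, -, hκi, hH, hT'⟩ := key (S.J - k) (by omega)
  have e1 : k + (S.J - k) = S.J := by omega
  rw [e1, hκi (by omega)] at hH
  refine ⟨T', ?_, hH⟩
  have hp0 : (0 : ℝ) ≤ (1 / 2) ^ (S.J - k) := by positivity
  have h1 : 8 * c * (1 - (1 / 2) ^ (S.J - k)) ≤ 8 * c * 1 :=
    mul_le_mul_of_nonneg_left (by linarith) (by positivity)
  have h2 : 112 * ε₁ / S.rho ^ 2 + 64 * ε₁ / S.rho ^ 2 ≤ 200 * ε₁ / S.rho ^ 2 := by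
    rw [← add_div]
    apply div_le_div_of_nonneg_right _ (by positivity)
    linarith
  linarith

end Pool.Agent.H97.N4D
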